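import Pool.Agent.NPG.StmtsD

/-!
# Squad NPY, row RNG: rings around a coset outside the group (second seat)
-/

set_option autoImplicit false

open MeasureTheory Set Topology

namespace Pool.Agent.NPY.H64

open Pool.Agent.LSG Pool.Agent.NPY

/-- a cylinder -/
def cy (n : ℕ) (p : K) : Set K := {x | ∀ i < n, x i = p i}

theorem cy_clopen (n : ℕ) (p : K) : IsClopen (cy n p) := by
  have e : cy n p = ⋂ i ∈ Set.Iio n, (fun x : K => x i) ⁻¹' {p i} := by
    ext x
    simp only [cy, Set.mem_ofPred_eq, Set.mem_iInter, Set.mem_Iio, Set.mem_preimage,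
      Set.mem_singleton_iff]
  rw [e]
  exact (Set.finite_Iio n).isClopen_biInter fun i _ =>
    (isClopen_discrete ({p i} : Set (ZMod 2))).preimage (continuous_apply i)

/-- a cylinder with its code -/
def cv (v : Σ n : ℕ, (Fin n → ZMod 2)) : Set K := {x | ∀ i : Fin v.1, x i = v.2 i}

theorem cv_eq (n : ℕ) (p : K) : cv ⟨n, fun i => p i⟩ = cy n p := by
  ext x
  simp only [cv, cy, Set.mem_ofPred_eq]
  exact ⟨fun h i hi => h ⟨i, hi⟩, fun h i => h i i.2⟩

theorem exists_pt (h1 : MukStmt) (h2 : GntStmt) (G : AddSubgroup K) (hG : Big G) (W : Set K)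
    (hW : MeasurableSet W) (hpos : 0 < mu W) :
    ∃ p : K, p ∉ G ∧ ∀ n, 0 < mu (W ∩ cy n p) := by
  classical
  by_contra hcon
  have hc : ∀ p : K, p ∉ G → ∃ n, mu (W ∩ cy n p) = 0 := by
    intro p hp
    by_contra h
    push Not at h
    exact hcon ⟨p, hp, fun n => pos_iff_ne_zero.2 (h n)⟩
  let U : (Σ n : ℕ, (Fin n → ZMod 2)) → Set K := fun v => if mu (W ∩ cv v) = 0 then cv v else ∅
  have hUm : ∀ v, MeasurableSet (U v) := by
    intro v
    by_cases h : mu (W ∩ cv v) = 0
    · simp only [U, if_pos h]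
      have e : cv v = ⋂ i : Fin v.1, (fun x : K => x i) ⁻¹' {v.2 i} := by
        ext x
        simp only [cv, Set.mem_ofPred_eq, Set.mem_iInter, Set.mem_preimage,
          Set.mem_singleton_iff]
      rw [e]
      exact MeasurableSet.iInter fun i => (measurable_pi_apply (i : ℕ)) (measurableSet_singleton _)
    · simp only [U, if_neg h]
      exact MeasurableSet.empty
  have hU0 : mu (⋃ v, W ∩ U v) = 0 := by
    refine measure_iUnion_null fun v => ?_
    by_cases h : mu (W ∩ cv v) = 0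
    · simp only [U, if_pos h]
      exact h
    · simp only [U, if_neg h, Set.inter_empty, measure_empty]
  have hVm : MeasurableSet (W \ ⋃ v, U v) := hW.diff (MeasurableSet.iUnion hUm)
  have hV : 0 < mu (W \ ⋃ v, U v) := by
    by_contra h
    rw [not_lt, nonpos_iff_eq_zero] at h
    refine hpos.ne' (measure_mono_null ?_ (measure_union_null hU0 h))
    intro x hx
    by_cases hxU : x ∈ ⋃ v, U v
    · left
      obtain ⟨v, hv⟩ := Set.mem_iUnion.1 hxU
      exact Set.mem_iUnion.2 ⟨v, hx, hv⟩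
    · exact Or.inr ⟨hx, hxU⟩
  have hsub : ∀ x ∈ W \ ⋃ v, U v, x ∈ G := by
    rintro x ⟨-, hx⟩
    by_contra hxG
    obtain ⟨n, hn⟩ := hc x hxG
    refine hx (Set.mem_iUnion.2 ⟨⟨n, fun i => x i⟩, ?_⟩)
    have e := cv_eq n x
    have h : mu (W ∩ cv ⟨n, fun i => x i⟩) = 0 := by
      rw [e]
      exact hn
    simp only [U, if_pos h]
    rw [e]
    exact fun i _ => rfl
  obtain ⟨p₀, hp₀⟩ : ∃ p₀ : K, p₀ ∉ G := by
    by_contra h
    push Not at h
    exact h2 G hG (eq_top_iff.2 fun x _ => h x)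
  have hm : MeasurableSet ((fun y => p₀ + y) ⁻¹' (W \ ⋃ v, U v)) :=
    (continuous_const.add continuous_id).measurable hVm
  obtain ⟨g, hg, hg2⟩ := hG.full _ hm (by rw [h1.2.1]; exact hV)
  have h5 : p₀ + g ∈ G := hsub _ hg2
  exact hp₀ ((G.add_mem_cancel_right hg).1 h5)

/-- the cylinders around a coset -/
def Cc (H : AddSubgroup K) (p : K) (n : ℕ) : Set K := {x | ∃ h ∈ H, ∀ i < n, x i = (p + h) i}

theorem Cc_eq (H : AddSubgroup K) (p : K) (n : ℕ) :
    Cc H p n = ⋃ h ∈ (H : Set K), cy n (p + h) := by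
  ext x
  simp only [Cc, cy, Set.mem_ofPred_eq, Set.mem_iUnion, SetLike.mem_coe, exists_prop]

theorem rng (h1 : MukStmt) (h2 : GntStmt) : RngStmt := by
  classical
  intro G hG H hH hHG W hW hpos
  obtain ⟨p, hpG, hp⟩ := exists_pt h1 h2 G hG W hW hpos
  have hCc : ∀ n, IsClopen (Cc H p n) := by
    intro n
    rw [Cc_eq]
    exact hH.isClopen_biUnion fun h _ => cy_clopen n (p + h)
  have hanti : ∀ n m, n ≤ m → Cc H p m ⊆ Cc H p n := by
    rintro n m hnm x ⟨h, hh, hx⟩
    exact ⟨h, hh, fun i hi => hx i (lt_of_lt_of_le hi hnm)⟩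
  have hinv : ∀ n, ∀ x ∈ Cc H p n, ∀ h' ∈ H, x + h' ∈ Cc H p n := by
    rintro n x ⟨h, hh, hx⟩ h' hh'
    refine ⟨h + h', H.add_mem hh hh', fun i hi => ?_⟩
    have := hx i hi
    simp only [Pi.add_apply] at this ⊢
    rw [this, add_assoc]
  have hall : ∀ x, (∀ n, x ∈ Cc H p n) → ∃ h ∈ H, x = p + h := by
    intro x hx
    by_contra hno
    push Not at hno
    have hex : ∀ h : K, ∃ i, h ∈ H → x i ≠ (p + h) i := by
      intro h
      by_cases hh : h ∈ H
      · obtain ⟨i, hi⟩ := Function.ne_iff.1 (hno h hh)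
        exact ⟨i, fun _ => hi⟩
      · exact ⟨0, fun h' => absurd h' hh⟩
    choose ix hix using hex
    obtain ⟨h, hh, hxh⟩ := hx (hH.toFinset.sup ix + 1)
    refine hix h hh (hxh _ ?_)
    exact Nat.lt_succ_of_le (Finset.le_sup (f := ix) (hH.mem_toFinset.2 hh))
  have h0 : ∀ x, x ∈ Cc H p 0 := fun x => ⟨0, H.zero_mem, fun i hi => by omega⟩
  refine ⟨fun n => Cc H p n \ Cc H p (n + 1), ⟨?_, ?_, ?_, ?_⟩, ?_⟩
  · intro n
    exact (hCc n).diff (hCc (n + 1))
  · intro n m hnm
    rw [Set.disjoint_left]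
    rintro x ⟨hx1, hx2⟩ ⟨hx3, hx4⟩
    rcases Nat.lt_or_gt_of_ne hnm with h | h
    · exact hx2 (hanti (n + 1) m h hx3)
    · exact hx4 (hanti (m + 1) n h hx1)
  · intro x hx
    have hex : ∃ n, x ∉ Cc H p n := by
      by_contra h
      push Not at h
      obtain ⟨h', hh', e⟩ := hall x h
      refine hpG ((G.add_mem_cancel_right (hHG hh')).1 ?_)
      rw [← e]
      exact hx
    have h3 := Nat.find_spec hex
    have h4 : Nat.find hex ≠ 0 := by
      intro h
      rw [h] at h3
      exact h3 (h0 x)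
    obtain ⟨m, hm⟩ := Nat.exists_eq_succ_of_ne_zero h4
    refine ⟨m, ?_, ?_⟩
    · by_contra h
      exact Nat.find_min hex (by omega) h
    · have h5 : m + 1 = Nat.find hex := hm.symm
      rw [h5]
      exact h3
  · rintro n x ⟨hx1, hx2⟩ h hh
    refine ⟨hinv n x hx1 h hh, fun h5 => hx2 ?_⟩
    have h6 := hinv (n + 1) _ h5 (-h) (H.neg_mem hh)
    rwa [add_neg_cancel_right] at h6
  · intro N
    by_contra hcon
    have hz : ∀ n, N ≤ n → mu (W ∩ (Cc H p n \ Cc H p (n + 1))) = 0 := by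
      intro n hn
      by_contra h
      exact hcon ⟨n, hn, pos_iff_ne_zero.2 h⟩
    have hfin : mu ((fun h : K => p + h) '' (H : Set K)) = 0 := by
      have hc : ((fun h : K => p + h) '' (H : Set K)).Countable := (hH.image _).countable
      have e : ((fun h : K => p + h) '' (H : Set K)) =
          ⋃ x ∈ ((fun h : K => p + h) '' (H : Set K)), {x} := (Set.biUnion_of_singleton _).symm
      rw [e]
      exact (measure_biUnion_null_iff hc).2 fun x _ => h1.2.2.1 x
    have hU : mu (⋃ n : ℕ, W ∩ (Cc H p (N + n) \ Cc H p (N + n + 1))) = 0 :=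
      measure_iUnion_null fun n => hz (N + n) (by omega)
    refine (hp N).ne' (measure_mono_null ?_ (measure_union_null hU hfin))
    rintro x ⟨hxW, hx⟩
    by_cases hx2 : ∃ n, x ∈ Cc H p (N + n) \ Cc H p (N + n + 1)
    · obtain ⟨n, hn⟩ := hx2
      exact Or.inl (Set.mem_iUnion.2 ⟨n, hxW, hn⟩)
    · right
      have hN : x ∈ Cc H p N := ⟨0, H.zero_mem, fun i hi => by rw [add_zero]; exact hx i hi⟩
      have hk : ∀ n, x ∈ Cc H p (N + n) := by
        intro n
        induction n with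
        | zero => exact hN
        | succ n ih =>
          by_contra h
          exact hx2 ⟨n, ih, h⟩
      obtain ⟨h, hh, e⟩ := hall x fun n => hanti n (N + n) (by omega) (hk n)
      exact ⟨h, hh, e.symm⟩

end Pool.Agent.NPY.H64
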